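import Pool.Agent.helper17.EXC.Spec

set_option autoImplicit false

open Finset

namespace Pool.Agent.EXC

lemma NBR_tr {n : ℕ} (C : Matrix (Fin n) (Fin n) ℤ) [IsC C] (hRFL : RFL_stmt) (J : Finset (Fin n)) (α α' : Fin n → ℤ)
    (h : Relation.ReflTransGen (fun a b => ∃ i ∈ J, b = rf C i a) α α') (β : Fin n → ℤ) :
    ∃ β', ip C β' β' = ip C β β ∧ ip C α' β' = ip C α β ∧ WP C (α, β) (α', β') := by
  induction h with
  | refl => exact ⟨β, rfl, rfl, Relation.ReflTransGen.refl⟩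
  | @tail b c _ hbc ih =>
    obtain ⟨β', h1, h2, h3⟩ := ih
    obtain ⟨i, _, rfl⟩ := hbc
    refine ⟨rf C i β', ?_, ?_, ?_⟩
    · rw [(hRFL n C i β' β').1, h1]
    · rw [(hRFL n C i b β').1, h2]
    · exact Relation.ReflTransGen.tail h3 ⟨i, rfl⟩

theorem NBR (hRFL : RFL_stmt) (hDOM : DOM_stmt) : NBR_stmt := by
  intro n C _ j0 θ δ hE
  constructor
  · intro α hα
    have h0 : ip C (sr (δ 0)) (sr (δ 0)) = 2 := ip_sr_self C (δ 0)
    have h := hDOM n C Finset.univ hE.con (sr (δ 0)) α h0 hα (fun i hi => absurd (Finset.mem_univ i) hi)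
      (fun i hi => absurd (Finset.mem_univ i) hi)
    obtain ⟨β', h1, h2, _⟩ := NBR_tr C hRFL Finset.univ _ _ h (sr (δ 1))
    refine ⟨β', ?_, ?_⟩
    · rw [h1]; exact ip_sr_self C (δ 1)
    · rw [h2, ip_sr_sr, hE.ch 0 1]; decide
  · intro α α' β hα hα' hβ
    have h := hDOM n C Finset.univ hE.con α α' hα hα' (fun i hi => absurd (Finset.mem_univ i) hi)
      (fun i hi => absurd (Finset.mem_univ i) hi)
    obtain ⟨β', h1, _, h3⟩ := NBR_tr C hRFL Finset.univ _ _ h β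
    exact ⟨β', by rw [h1, hβ], h3⟩

end Pool.Agent.EXC
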