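import Pool.Agent.helper17.EXC.Spec

set_option autoImplicit false

open Finset

namespace Pool.Agent.EXC

lemma DE6_six (v : Fin 6 → ℤ) : 6 * ip CartanMatrix.E₆ v v =
    3 * (2 * v 1 - v 3) ^ 2 + 3 * (2 * v 0 - v 2) ^ 2 + (3 * v 2 - 2 * v 3) ^ 2 + 3 * (2 * v 5 - v 4) ^ 2 +
      (3 * v 4 - 2 * v 3) ^ 2 + v 3 ^ 2 := by
  simp only [ip, CartanMatrix.E₆, Fin.sum_univ_six]
  simp [Matrix.of_apply, Matrix.cons_val]
  ring

lemma DE6_pos (v : Fin 6 → ℤ) (hv : v ≠ 0) : 0 < ip CartanMatrix.E₆ v v := by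
  have h6 := DE6_six v
  by_contra h
  push Not at h
  apply hv
  have a1 := sq_nonneg (2 * v 1 - v 3)
  have a2 := sq_nonneg (2 * v 0 - v 2)
  have a3 := sq_nonneg (3 * v 2 - 2 * v 3)
  have a4 := sq_nonneg (2 * v 5 - v 4)
  have a5 := sq_nonneg (3 * v 4 - 2 * v 3)
  have a6 := sq_nonneg (v 3)
  have h3 : v 3 = 0 := by
    have : v 3 ^ 2 = 0 := by linarith
    exact pow_eq_zero_iff (two_ne_zero) |>.1 this
  have h2 : v 2 = 0 := by
    have : (3 * v 2 - 2 * v 3) ^ 2 = 0 := by linarith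
    have := pow_eq_zero_iff (two_ne_zero) |>.1 this
    omega
  have h4 : v 4 = 0 := by
    have : (3 * v 4 - 2 * v 3) ^ 2 = 0 := by linarith
    have := pow_eq_zero_iff (two_ne_zero) |>.1 this
    omega
  have h1 : v 1 = 0 := by
    have : (2 * v 1 - v 3) ^ 2 = 0 := by linarith
    have := pow_eq_zero_iff (two_ne_zero) |>.1 this
    omega
  have h0 : v 0 = 0 := by
    have : (2 * v 0 - v 2) ^ 2 = 0 := by linarith
    have := pow_eq_zero_iff (two_ne_zero) |>.1 this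
    omega
  have h5 : v 5 = 0 := by
    have : (2 * v 5 - v 4) ^ 2 = 0 := by linarith
    have := pow_eq_zero_iff (two_ne_zero) |>.1 this
    omega
  funext i
  fin_cases i
  · exact h0
  · exact h1
  · exact h2
  · exact h3
  · exact h4
  · exact h5

theorem DE6 : DE6_stmt := by
  refine ⟨⟨?_, ?_, ?_, DE6_pos⟩, ⟨?_, ?_, ?_, ?_, ?_, ?_⟩⟩
  · decide
  · decide
  · decide
  · decide +kernel
  · decide +kernel
  · unfold Conn; decide +kernel
  · unfold Conn; decide +kernel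
  · decide +kernel
  · decide +kernel

end Pool.Agent.EXC
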